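import Pool.Agent.P.MP_1cd2aa_co.Hash

set_option autoImplicit false
open Classical Finset

namespace Pool.Agent.Results.MP_1cd2aa_co.LogOverD

open Pool.Agent.MP_1cd2aa_co

/-- Subcubes of the `n`-cube are words over `0, 1, *` (`none` is `*`). `ex` is the largest size of
a family of 2-subcubes that does not hold all 2-subcubes of any `d`-subcube, `N` the number of all
2-subcubes. Then `1 - ex / N` is at most `1000 log d / (d 2^d)`. -/
theorem result (n d : ℕ) (hd : 2 ≤ d) (hn : d ≤ n) (ex N : ℕ)
    (hex : ex = ((Finset.univ : Finset (Finset (Fin n → Option Bool))).filter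
      (fun F =>
        (∀ x ∈ F, (Finset.univ.filter (fun i => x i = none)).card = 2) ∧
        ∀ C : Fin n → Option Bool,
          (Finset.univ.filter (fun i => C i = none)).card = d →
          ¬ (∀ D : Fin n → Option Bool,
              (Finset.univ.filter (fun i => D i = none)).card = 2 →
              (∀ (i : Fin n) (b : Bool), C i = some b → D i = some b) →
              D ∈ F))).sup Finset.card)
    (hN : N = ((Finset.univ : Finset (Fin n → Option Bool)).filter
      (fun D => (Finset.univ.filter (fun i => D i = none)).card = 2)).card) :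
    1 - (ex : ℝ) / N ≤ 1000 * Real.log d / (d * 2 ^ d) := by
  set Q : Finset (Fin n → Option Bool) := Finset.univ.filter
      (fun D => (Finset.univ.filter (fun i => D i = none)).card = 2) with hQdef
  have hQ : ∀ D, D ∈ Q ↔ (flips D).card = 2 := by
    intro D
    rw [hQdef, mem_filter]
    exact ⟨fun h => h.2, fun h => ⟨mem_univ _, h⟩⟩
  set 𝓕 : Finset (Finset (Fin n → Option Bool)) := Finset.univ.filter
      (fun F =>
        (∀ x ∈ F, (Finset.univ.filter (fun i => x i = none)).card = 2) ∧
        ∀ C : Fin n → Option Bool,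
          (Finset.univ.filter (fun i => C i = none)).card = d →
          ¬ (∀ D : Fin n → Option Bool,
              (Finset.univ.filter (fun i => D i = none)).card = 2 →
              (∀ (i : Fin n) (b : Bool), C i = some b → D i = some b) →
              D ∈ F)) with hFdef
  have hF : ∀ S, S ∈ 𝓕 ↔ S ⊆ Q ∧ ∀ C, (flips C).card = d →
      ¬ ∀ D, (flips D).card = 2 → (∀ i b, C i = some b → D i = some b) → D ∈ S := by
    intro S
    rw [hFdef, mem_filter]
    exact ⟨fun h => ⟨fun x hx => (hQ x).mpr (h.2.1 x hx), h.2.2⟩,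
      fun h => ⟨mem_univ _, fun x hx => (hQ x).mp (h.1 hx), h.2⟩⟩
  have hNpos : 0 < N := by
    obtain ⟨D, hD, -⟩ := exists_two (n := n) (d := n) (hd.trans hn) (fun _ => none)
      (by simp [flips])
    rw [hN]
    exact card_pos.mpr ⟨D, (hQ D).mpr hD⟩
  have hNR : (0 : ℝ) < N := by exact_mod_cast hNpos
  have hl2 := Real.log_two_gt_d9
  have hdR : (2 : ℝ) ≤ d := by exact_mod_cast hd
  have hpos : (0 : ℝ) < d * 2 ^ d := by positivity
  by_cases h7 : 7 ≤ d
  · obtain ⟨S, hSQ, hfree, hcard⟩ := exists_free_sharp n d h7 Q hQ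
    have h1 : S.card ≤ ex := by
      rw [hex]
      exact Finset.le_sup (f := Finset.card) ((hF S).mpr ⟨hSQ, hfree⟩)
    rw [← hN] at hcard
    have h2 : N * (d * 2 ^ d) ≤ ex * (d * 2 ^ d) + 314 * (Nat.log 2 d + 1) * N :=
      hcard.trans (Nat.add_le_add_right (Nat.mul_le_mul_right _ h1) _)
    have h2R : (N : ℝ) * (d * 2 ^ d) ≤
        (ex : ℝ) * (d * 2 ^ d) + 314 * ((Nat.log 2 d : ℝ) + 1) * N := by exact_mod_cast h2
    have h3 : (2 : ℝ) ≤ (Nat.log 2 d : ℝ) := by
      exact_mod_cast Nat.le_log_of_pow_le (by norm_num) (by omega : 2 ^ 2 ≤ d)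
    have h4 : (Nat.log 2 d : ℝ) * Real.log 2 ≤ Real.log d := by
      rw [← Real.log_pow]
      exact Real.log_le_log (by positivity)
        (by exact_mod_cast Nat.pow_log_le_self 2 (by omega : d ≠ 0))
    have h5 : 314 * ((Nat.log 2 d : ℝ) + 1) ≤ 1000 * Real.log d := by nlinarith
    have e : 1 - (ex : ℝ) / N = ((N : ℝ) - ex) / N := by
      field_simp
    rw [e, div_le_div_iff₀ hNR hpos]
    nlinarith [mul_le_mul_of_nonneg_right h5 hNR.le]
  · have h1 : (d : ℝ) * 2 ^ d ≤ 6 * 2 ^ 6 :=
      mul_le_mul (by exact_mod_cast (by omega : d ≤ 6))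
        (pow_le_pow_right₀ (by norm_num) (by omega)) (by positivity) (by norm_num)
    have h0 : Real.log 2 ≤ Real.log d := Real.log_le_log (by norm_num) hdR
    have h2 : (1 : ℝ) ≤ 1000 * Real.log d / (d * 2 ^ d) := by
      rw [le_div_iff₀ hpos]
      linarith
    have h3 : (0 : ℝ) ≤ (ex : ℝ) / N := by positivity
    linarith

end Pool.Agent.Results.MP_1cd2aa_co.LogOverD
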